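import Pool.Agent.Q57.QM.Stm
import Pool.Agent.W574.MO.Alg

set_option autoImplicit false

/-! # The blow-up formula for the series of arcs -/

namespace Pool.Agent.Q18.QM

open MvPolynomial Pool.Agent.W428.MOT Pool.Agent.TH192.MT Pool.Agent.TH192.DT Pool.Agent.Q49.CO
open Pool.Agent.W574.MO (mf geo)
open Pool.Agent.W574.SM (chart chartI)
open Pool.Agent.Q57.QM

theorem OC_vn1 {a k : ℕ} {u : PowerSeries (AlgebraicClosure ℂ)} (h : OC a k u) : Vn 1 u := by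
  unfold OC at h
  split_ifs at h with h0
  · exact h.2
  · exact fun j hj => h.2.1 j (by omega)

theorem cyl_OC (i : Fin 2) (a k : ℕ) : Cyl (fun γ : Arc ℂ (Fin 2) => OC a k (γ i)) k := by
  unfold OC
  split_ifs with h
  · exact (Cyl.const _ _).and (Cyl.vnX i (by omega))
  · exact (Cyl.const _ _).and ((Cyl.vnX i (by omega)).and (Cyl.c0 i le_rfl).not)

theorem cyl_Rg {r : ℕ} (g : Fin r → MvPolynomial (Fin 2) ℂ) (a0 k0 a1 k1 : ℕ)
    {Q : Arc ℂ (Fin 2) → Prop} {q : ℕ} (hQ : Cyl Q q) (N : ℕ) :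
    Cyl (Rg g a0 k0 a1 k1 Q N) (q + k0 + k1 + N) := by
  unfold Rg
  refine (hQ.mono (by omega)).and (((cyl_OC 0 a0 k0).mono (by omega)).and
    (((cyl_OC 1 a1 k1).mono (by omega)).and (Cyl.all fun j => Cyl.vn (g j) (by omega))))

section

variable {R : Type} [CommRing R] (M : Meas ℂ R) {v : R}

theorem sv_congr {r : ℕ} (g : Fin r → MvPolynomial (Fin 2) ℂ) (a0 n0 a1 n1 : ℕ)
    {Q Q' : Arc ℂ (Fin 2) → Prop} (h : ∀ γ, Vn 1 (γ 0) → Vn 1 (γ 1) → (Q γ ↔ Q' γ)) (B N : ℕ) :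
    sv M v g a0 n0 a1 n1 Q B N = sv M v g a0 n0 a1 n1 Q' B N := by
  have h1 : ∀ k0 k1 T, vo M v (Rg g a0 k0 a1 k1 Q T) = vo M v (Rg g a0 k0 a1 k1 Q' T) := by
    intro k0 k1 T
    refine vo_congr M fun γ => ?_
    unfold Rg
    constructor
    · rintro ⟨a, b, c, d⟩
      exact ⟨(h γ (OC_vn1 b) (OC_vn1 c)).1 a, b, c, d⟩
    · rintro ⟨a, b, c, d⟩
      exact ⟨(h γ (OC_vn1 b) (OC_vn1 c)).2 a, b, c, d⟩
  unfold sv dv
  simp only [h1]

variable (hv : M.L * v = 1)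
include hv

theorem sv_false {r : ℕ} (g : Fin r → MvPolynomial (Fin 2) ℂ) (a0 n0 a1 n1 : ℕ)
    {Q : Arc ℂ (Fin 2) → Prop} (h : ∀ γ, ¬ Q γ) (B N : ℕ) :
    sv M v g a0 n0 a1 n1 Q B N = 0 := by
  have h1 : ∀ k0 k1 T, vo M v (Rg g a0 k0 a1 k1 Q T) = 0 := by
    intro k0 k1 T
    exact vo_false M hv fun γ hγ => h γ hγ.1
  unfold sv dv
  simp only [h1, sub_self, mul_zero, Finset.sum_const_zero]

theorem sv_or {r : ℕ} (g : Fin r → MvPolynomial (Fin 2) ℂ) (a0 n0 a1 n1 : ℕ)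
    {Q Q' : Arc ℂ (Fin 2) → Prop} {q q' : ℕ} (hQ : Cyl Q q) (hQ' : Cyl Q' q')
    (hd : ∀ γ, Q γ → Q' γ → False) (B N : ℕ) :
    sv M v g a0 n0 a1 n1 (fun γ => Q γ ∨ Q' γ) B N =
      sv M v g a0 n0 a1 n1 Q B N + sv M v g a0 n0 a1 n1 Q' B N := by
  have h1 : ∀ k0 k1 T, vo M v (Rg g a0 k0 a1 k1 (fun γ => Q γ ∨ Q' γ) T) =
      vo M v (Rg g a0 k0 a1 k1 Q T) + vo M v (Rg g a0 k0 a1 k1 Q' T) := by
    intro k0 k1 T
    rw [← vo_or M hv (cyl_Rg g a0 k0 a1 k1 hQ T) (cyl_Rg g a0 k0 a1 k1 hQ' T)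
      fun γ h h' => hd γ h.1 h'.1]
    refine vo_congr M fun γ => ?_
    unfold Rg
    tauto
  unfold sv dv
  simp only [h1]
  rw [← mul_add, ← Finset.sum_add_distrib]
  congr 1
  refine Finset.sum_congr rfl fun k0 _ => ?_
  rw [← Finset.sum_add_distrib]
  refine Finset.sum_congr rfl fun k1 _ => ?_
  ring

theorem sv_ex {r : ℕ} (g : Fin r → MvPolynomial (Fin 2) ℂ) (a0 n0 a1 n1 : ℕ) {α : Type}
    (s : Finset α) {Q : α → Arc ℂ (Fin 2) → Prop} {q : ℕ} (hQ : ∀ a ∈ s, Cyl (Q a) q)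
    (hd : ∀ a ∈ s, ∀ b ∈ s, a ≠ b → ∀ γ, Q a γ → Q b γ → False) (B N : ℕ) :
    sv M v g a0 n0 a1 n1 (fun γ => ∃ a ∈ s, Q a γ) B N =
      ∑ a ∈ s, sv M v g a0 n0 a1 n1 (Q a) B N := by
  classical
  induction s using Finset.induction_on with
  | empty =>
    rw [Finset.sum_empty]
    exact sv_false M hv g a0 n0 a1 n1 (fun γ ⟨a, ha, _⟩ => absurd ha (Finset.notMem_empty a)) B N
  | insert a s ha ih =>
    rw [Finset.sum_insert ha, ← ih (fun b hb => hQ b (Finset.mem_insert_of_mem hb))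
      fun b hb c hc => hd b (Finset.mem_insert_of_mem hb) c (Finset.mem_insert_of_mem hc),
      ← sv_or M hv g a0 n0 a1 n1 (hQ a (Finset.mem_insert_self _ _))
        (Cyl.exFinset s fun b hb => hQ b (Finset.mem_insert_of_mem hb))]
    · refine sv_congr M g a0 n0 a1 n1 (fun γ _ _ => ?_) B N
      simp only [Finset.mem_insert, exists_eq_or_imp]
    · rintro γ h1 ⟨b, hb, h2⟩
      refine hd a (Finset.mem_insert_self _ _) b (Finset.mem_insert_of_mem hb) ?_ γ h1 h2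
      rintro rfl
      exact ha hb

end

/-! ## The pieces -/

/-- `ord y = k`, `ord x > k` -/
def Ik (k : ℕ) (γ : Arc ℂ (Fin 2)) : Prop :=
  Vn (k + 1) (γ 0) ∧ Vn k (γ 1) ∧ PowerSeries.coeff k (γ 1) ≠ 0

theorem cyl_Ik (k : ℕ) : Cyl (Ik k) k := by
  unfold Ik
  exact (Cyl.vnX 0 (by omega)).and ((Cyl.vnX 1 (by omega)).and (Cyl.c0 1 le_rfl).not)

theorem cyl_rel (c : ℂ) (k : ℕ) : Cyl (fun γ : Arc ℂ (Fin 2) =>
    PowerSeries.coeff k (γ 1) = algebraMap ℂ (AlgebraicClosure ℂ) c * PowerSeries.coeff k (γ 0)) k := by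
  refine (Cyl.cpoly (q := k) (X ((1 : Fin 2), (⟨k, by omega⟩ : Fin (k + 1))) -
    C c * X ((0 : Fin 2), (⟨k, by omega⟩ : Fin (k + 1))))).congr fun γ => ?_
  rw [map_sub, map_mul, aeval_X, aeval_X, aeval_C, sub_eq_zero]
  rfl

theorem cyl_Dc (c : ℂ) (k : ℕ) : Cyl (Dc c k) k := by
  unfold Dc
  exact (Cyl.vnX 0 (by omega)).and ((Cyl.c0 0 le_rfl).not.and ((Cyl.vnX 1 (by omega)).and
    (cyl_rel c k)))

theorem cyl_Er (S : Finset ℂ) (k : ℕ) : Cyl (Er S k) k := by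
  unfold Er
  refine (Cyl.vnX 0 (by omega)).and ((Cyl.c0 0 le_rfl).not.and ((Cyl.vnX 1 (by omega)).and ?_))
  have h := (Cyl.all (α := S) (P := fun c γ => ¬ (PowerSeries.coeff k (γ 1) =
    algebraMap ℂ (AlgebraicClosure ℂ) (c : ℂ) * PowerSeries.coeff k (γ 0)))
    fun c => (cyl_rel (c : ℂ) k).not)
  refine h.congr fun γ => ?_
  constructor
  · intro h1 c hc
    exact h1 ⟨c, hc⟩
  · intro h1 c
    exact h1 c.1 c.2

theorem vn_not {a : PowerSeries (AlgebraicClosure ℂ)} {k l : ℕ} (h : Vn l a)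
    (hk : PowerSeries.coeff k a ≠ 0) : l ≤ k := by
  by_contra hc
  exact hk (h k (by omega))

theorem decomp (S : Finset ℂ) (N : ℕ) (γ : Arc ℂ (Fin 2)) (h0 : Vn 1 (γ 0)) (h1 : Vn 1 (γ 1)) :
    True ↔ ((∃ x ∈ Finset.Icc 1 N ×ˢ S, Dc x.2 x.1 γ) ∨ ((∃ k ∈ Finset.Icc 1 N, Er S k γ) ∨
      ((∃ k ∈ Finset.Icc 1 N, Ik k γ) ∨ (Vn (N + 1) (γ 0) ∧ Vn (N + 1) (γ 1))))) := by
  refine ⟨fun _ => ?_, fun _ => trivial⟩
  by_cases ht : Vn (N + 1) (γ 0) ∧ Vn (N + 1) (γ 1)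
  · exact Or.inr (Or.inr (Or.inr ht))
  have hex : ∃ k, PowerSeries.coeff k (γ 0) ≠ 0 ∨ PowerSeries.coeff k (γ 1) ≠ 0 := by
    by_contra hc
    push Not at hc
    exact ht ⟨fun j _ => (hc j).1, fun j _ => (hc j).2⟩
  classical
  obtain ⟨k, hk, hmin⟩ : ∃ k, (PowerSeries.coeff k (γ 0) ≠ 0 ∨ PowerSeries.coeff k (γ 1) ≠ 0) ∧
      ∀ j < k, PowerSeries.coeff j (γ 0) = 0 ∧ PowerSeries.coeff j (γ 1) = 0 := by
    refine ⟨Nat.find hex, Nat.find_spec hex, fun j hj => ?_⟩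
    have := Nat.find_min hex hj
    push Not at this
    exact this
  have hv0 : Vn k (γ 0) := fun j hj => (hmin j hj).1
  have hv1 : Vn k (γ 1) := fun j hj => (hmin j hj).2
  have hk1 : 1 ≤ k := by
    rcases hk with h | h
    · exact vn_not h0 h
    · exact vn_not h1 h
  have hkN : k ≤ N := by
    by_contra hc
    exact ht ⟨fun j hj => hv0 j (by omega), fun j hj => hv1 j (by omega)⟩
  have hkI : k ∈ Finset.Icc 1 N := Finset.mem_Icc.2 ⟨hk1, hkN⟩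
  by_cases hx : PowerSeries.coeff k (γ 0) = 0
  · refine Or.inr (Or.inr (Or.inl ⟨k, hkI, ?_, hv1, ?_⟩))
    · intro j hj
      rcases Nat.lt_succ_iff_lt_or_eq.1 hj with h | h
      · exact hv0 j h
      · rw [h]
        exact hx
    · rcases hk with h | h
      · exact absurd hx h
      · exact h
  · by_cases hc : ∃ c ∈ S, PowerSeries.coeff k (γ 1) =
      algebraMap ℂ (AlgebraicClosure ℂ) c * PowerSeries.coeff k (γ 0)
    · obtain ⟨c, hcS, hc⟩ := hc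
      exact Or.inl ⟨(k, c), Finset.mem_product.2 ⟨hkI, hcS⟩, hv0, hx, hv1, hc⟩
    · push Not at hc
      exact Or.inr (Or.inl ⟨k, hkI, hv0, hx, hv1, hc⟩)

theorem Dc_disj {c c' : ℂ} {k k' : ℕ} {γ : Arc ℂ (Fin 2)} (h : Dc c k γ) (h' : Dc c' k' γ) :
    k = k' ∧ c = c' := by
  have h1 := vn_not h.1 h'.2.1
  have h2 := vn_not h'.1 h.2.1
  have h3 : k = k' := by omega
  subst h3
  refine ⟨rfl, ?_⟩
  have h4 := h.2.2.2.symm.trans h'.2.2.2
  have h5 := mul_right_cancel₀ h.2.1 h4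
  exact (algebraMap ℂ (AlgebraicClosure ℂ)).injective h5

theorem Er_disj {S S' : Finset ℂ} {k k' : ℕ} {γ : Arc ℂ (Fin 2)} (h : Er S k γ) (h' : Er S' k' γ) :
    k = k' := by
  have h1 := vn_not h.1 h'.2.1
  have h2 := vn_not h'.1 h.2.1
  omega

theorem Ik_disj {k k' : ℕ} {γ : Arc ℂ (Fin 2)} (h : Ik k γ) (h' : Ik k' γ) :
    k = k' := by
  have h1 := vn_not h.2.1 h'.2.2
  have h2 := vn_not h'.2.1 h.2.2
  omega

theorem Dc_Er {S : Finset ℂ} {c : ℂ} (hc : c ∈ S) {k k' : ℕ} {γ : Arc ℂ (Fin 2)} (h : Dc c k γ)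
    (h' : Er S k' γ) : False := by
  have h1 := vn_not h.1 h'.2.1
  have h2 := vn_not h'.1 h.2.1
  have h3 : k = k' := by omega
  subst h3
  exact h'.2.2.2 c hc h.2.2.2

theorem xy_Ik {k k' : ℕ} {γ : Arc ℂ (Fin 2)} (h0 : PowerSeries.coeff k (γ 0) ≠ 0) (h1 : Vn k (γ 1))
    (h' : Ik k' γ) : False := by
  have h2 := vn_not h'.1 h0
  have h3 := vn_not h1 h'.2.2
  omega

section

variable {R : Type} [CommRing R] (M : Meas ℂ R) {v : R} (hv : M.L * v = 1)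
include hv

theorem sv_decomp {r : ℕ} (g : Fin r → MvPolynomial (Fin 2) ℂ) (a0 n0 a1 n1 : ℕ) (S : Finset ℂ)
    (B N : ℕ) :
    sv M v g a0 n0 a1 n1 (fun _ => True) B N =
      ∑ x ∈ Finset.Icc 1 N ×ˢ S, sv M v g a0 n0 a1 n1 (Dc x.2 x.1) B N +
      (∑ k ∈ Finset.Icc 1 N, sv M v g a0 n0 a1 n1 (Er S k) B N +
      (∑ k ∈ Finset.Icc 1 N, sv M v g a0 n0 a1 n1 (Ik k) B N +
        sv M v g a0 n0 a1 n1 (fun γ => Vn (N + 1) (γ 0) ∧ Vn (N + 1) (γ 1)) B N)) := by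
  rw [sv_congr M g a0 n0 a1 n1 (decomp S N) B N]
  have cD : ∀ x ∈ Finset.Icc 1 N ×ˢ S, Cyl (Dc x.2 x.1) N := fun x hx =>
    (cyl_Dc x.2 x.1).mono (Finset.mem_Icc.1 (Finset.mem_product.1 hx).1).2
  have cE : ∀ k ∈ Finset.Icc 1 N, Cyl (Er S k) N := fun k hk =>
    (cyl_Er S k).mono (Finset.mem_Icc.1 hk).2
  have cI : ∀ k ∈ Finset.Icc 1 N, Cyl (Ik k) N := fun k hk =>
    (cyl_Ik k).mono (Finset.mem_Icc.1 hk).2
  have cT : Cyl (fun γ : Arc ℂ (Fin 2) => Vn (N + 1) (γ 0) ∧ Vn (N + 1) (γ 1)) N :=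
    (Cyl.vnX 0 (by omega)).and (Cyl.vnX 1 (by omega))
  have cD' := Cyl.exFinset (Finset.Icc 1 N ×ˢ S) (P := fun x => Dc x.2 x.1) cD
  have cE' := Cyl.exFinset (Finset.Icc 1 N) (P := fun k => Er S k) cE
  have cI' := Cyl.exFinset (Finset.Icc 1 N) (P := fun k => Ik k) cI
  rw [sv_or M hv g a0 n0 a1 n1 cD' (cE'.or (cI'.or cT)), sv_or M hv g a0 n0 a1 n1 cE' (cI'.or cT),
    sv_or M hv g a0 n0 a1 n1 cI' cT,
    sv_ex M hv g a0 n0 a1 n1 (Finset.Icc 1 N ×ˢ S) (Q := fun x => Dc x.2 x.1) cD,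
    sv_ex M hv g a0 n0 a1 n1 (Finset.Icc 1 N) (Q := fun k => Er S k) cE,
    sv_ex M hv g a0 n0 a1 n1 (Finset.Icc 1 N) (Q := fun k => Ik k) cI]
  · intro a _ b _ hab γ h h'
    exact hab (Ik_disj h h')
  · intro a _ b _ hab γ h h'
    exact hab (Er_disj h h')
  · intro a _ b _ hab γ h h'
    refine hab (Prod.ext (Dc_disj h h').1 (Dc_disj h h').2)
  · rintro γ ⟨k, hk, h⟩ h'
    have := vn_not h'.2 h.2.2
    have := (Finset.mem_Icc.1 hk).2
    omega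
  · rintro γ ⟨k, hk, h⟩ (⟨k', _, h'⟩ | h')
    · exact xy_Ik h.2.1 h.2.2.1 h'
    · have := vn_not h'.1 h.2.1
      have := (Finset.mem_Icc.1 hk).2
      omega
  · rintro γ ⟨x, hx, h⟩ (⟨k', _, h'⟩ | ⟨k', _, h'⟩ | h')
    · exact Dc_Er (Finset.mem_product.1 hx).2 h h'
    · exact xy_Ik h.2.1 h.2.2.1 h'
    · have := vn_not h'.1 h.2.1
      have := (Finset.mem_Icc.1 (Finset.mem_product.1 hx).1).2
      omega

theorem dv_zero {r : ℕ} (g : Fin r → MvPolynomial (Fin 2) ℂ) {A : ℕ} (hA : 1 ≤ A) (n a1 n1 : ℕ)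
    (Q : Arc ℂ (Fin 2) → Prop) (k1 N : ℕ) : dv M v g A n a1 n1 Q 0 k1 N = 0 := by
  have h : ∀ T, vo M v (Rg g A 0 a1 k1 Q T) = 0 := fun T => vo_false M hv fun γ hγ => by
    have h1 := hγ.2.1
    unfold OC at h1
    rw [if_neg (by omega)] at h1
    omega
  unfold dv
  rw [h, h, sub_self, mul_zero]

theorem sv_pos {r : ℕ} (g : Fin r → MvPolynomial (Fin 2) ℂ) {A : ℕ} (hA : 1 ≤ A) (n a1 n1 : ℕ)
    (Q : Arc ℂ (Fin 2) → Prop) (N : ℕ) : sv M v g A n a1 n1 Q (N + 1) N =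
      ∑ k ∈ Finset.Icc 1 N, M.L ^ 2 * ∑ k1 ∈ Finset.range (N + 1), dv M v g A n a1 n1 Q k k1 N := by
  unfold sv
  rw [Finset.mul_sum, Finset.range_eq_Ico, Finset.sum_eq_sum_Ico_succ_bot (by omega)]
  rw [Finset.sum_eq_zero (s := Finset.Ico 0 (N + 1)) (f := fun k1 => dv M v g A n a1 n1 Q 0 k1 N)
    fun k1 _ => dv_zero M hv g hA n a1 n1 Q k1 N, mul_zero, zero_add]
  rfl

end

open Pool.Agent.W574.MO in
theorem coeff_mf {R : Type} [CommRing R] (u : Rˣ) {A : ℕ} (hA : 1 ≤ A) (n N : ℕ) :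
    PowerSeries.coeff N (mf u A n) = ∑ k ∈ Finset.Icc 1 N,
      if A * k = N then ((u : R) - 1) * ((u⁻¹ : Rˣ) : R) ^ (n * k) else 0 := by
  set v : R := ((u⁻¹ : Rˣ) : R) with hv
  set Z : PowerSeries R := PowerSeries.mk fun N =>
    if A ∣ N ∧ 0 < N then ((u : R) - 1) * v ^ (n * (N / A)) else 0 with hZ
  have hq : qq u A n = PowerSeries.C (v ^ n) * PowerSeries.X ^ A := by
    rw [qq, hv]
    simp
  have hZ1 : (1 - qq u A n) * Z = PowerSeries.C ((u : R) - 1) * qq u A n := by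
    ext T
    rw [hq, sub_mul, one_mul, map_sub, mul_assoc, PowerSeries.coeff_C_mul,
      PowerSeries.coeff_X_pow_mul', PowerSeries.coeff_C_mul, PowerSeries.coeff_C_mul,
      PowerSeries.coeff_X_pow, hZ, PowerSeries.coeff_mk]
    rcases lt_trichotomy T A with h | h | h
    · rw [if_neg (by omega : ¬ A ≤ T), if_neg (by omega : ¬ T = A), if_neg, mul_zero, sub_zero,
        mul_zero]
      rintro ⟨h1, h2⟩
      exact absurd (Nat.le_of_dvd h2 h1) (by omega)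
    · subst h
      rw [if_pos ⟨dvd_rfl, by omega⟩, if_pos le_rfl, PowerSeries.coeff_mk, if_neg (by omega),
        if_pos rfl, Nat.div_self (by omega)]
      ring
    · rw [if_pos h.le, if_neg (by omega : ¬ T = A), PowerSeries.coeff_mk, mul_zero, mul_zero]
      obtain ⟨T', rfl⟩ := Nat.exists_eq_add_of_le h.le
      rw [Nat.add_sub_cancel_left, Nat.add_div_left _ (by omega : 0 < A)]
      by_cases hd : A ∣ T'
      · rw [if_pos ⟨(Nat.dvd_add_right dvd_rfl).2 hd, by omega⟩, if_pos ⟨hd, by omega⟩]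
        have e : n * (T' / A).succ = n + n * (T' / A) := by
          rw [Nat.mul_succ]
          ring
        rw [e, pow_add]
        ring
      · rw [if_neg fun h => hd ((Nat.dvd_add_right dvd_rfl).1 h.1), if_neg fun h => hd h.1]
        ring
  have hZ2 : mf u A n = Z := by
    have h1 := geo_mul u hA n
    calc mf u A n = PowerSeries.C ((u : R) - 1) * qq u A n * geo u A n := mf_pos u hA n
      _ = (1 - qq u A n) * Z * geo u A n := by rw [hZ1]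
      _ = ((1 - qq u A n) * geo u A n) * Z := by ring
      _ = Z := by rw [h1, one_mul]
  rw [hZ2, hZ, PowerSeries.coeff_mk]
  by_cases h : A ∣ N ∧ 0 < N
  · rw [if_pos h]
    obtain ⟨⟨k, rfl⟩, h2⟩ := h
    rw [Finset.sum_eq_single k]
    · rw [if_pos rfl, Nat.mul_div_cancel_left _ (by omega : 0 < A)]
    · intro b _ hb
      rw [if_neg]
      intro h3
      exact hb (Nat.eq_of_mul_eq_mul_left (by omega : 0 < A) h3)
    · intro h3
      exfalso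
      refine h3 (Finset.mem_Icc.2 ⟨?_, ?_⟩)
      · rcases Nat.eq_zero_or_pos k with h4 | h4
        · subst h4
          omega
        · exact h4
      · exact Nat.le_mul_of_pos_left k (by omega)
  · rw [if_neg h]
    symm
    refine Finset.sum_eq_zero fun k hk => ?_
    rw [if_neg]
    rintro rfl
    refine h ⟨dvd_mul_right A k, ?_⟩
    have := (Finset.mem_Icc.1 hk).1
    positivity

theorem chart_sw {r : ℕ} (g gI : Fin r → MvPolynomial (Fin 2) ℂ) (m : ℕ)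
    (h : ∀ j, aeval chartI (g j) = X 1 ^ m * gI j) (j : Fin r) :
    aeval (chart 0) (sw g j) = X 0 ^ m * sw gI j := by
  have h1 : aeval (chart 0) (sw g j) = rename (Equiv.swap 0 1) (aeval chartI (g j)) := by
    unfold sw
    rw [aeval_rename]
    have h2 : (rename (Equiv.swap (0 : Fin 2) 1)).comp (aeval chartI : MvPolynomial (Fin 2) ℂ →ₐ[ℂ] _) =
        aeval (chart 0 ∘ ⇑(Equiv.swap (0 : Fin 2) 1)) := by
      ext1 i
      rw [AlgHom.comp_apply, aeval_X, aeval_X, Function.comp_apply]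
      fin_cases i
      · change rename (Equiv.swap (0 : Fin 2) 1) (X 0 * X 1) = chart 0 (Equiv.swap (0 : Fin 2) 1 0)
        rw [map_mul, rename_X, rename_X, Equiv.swap_apply_left, Equiv.swap_apply_right]
        change X 1 * X 0 = X 0 * (X 1 + C 0)
        rw [map_zero, add_zero, mul_comm]
      · change rename (Equiv.swap (0 : Fin 2) 1) (X 1) = chart 0 (Equiv.swap (0 : Fin 2) 1 1)
        rw [rename_X, Equiv.swap_apply_right]
        rfl
    rw [← h2, AlgHom.comp_apply]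
  rw [h1, h, map_mul, map_pow, rename_X, Equiv.swap_apply_right]
  rfl

theorem qm_blow : StWin → StSwap → StTail → StChartK → StRestK → StBlow := by
  intro _ hSwap hTail hChart hRest R _ M u hL r g gc gI m hm hgc hgI S h0S hS a0 n0 a1 n1 hn0 hn1
    ha0 ha1
  set v : R := ((u⁻¹ : Rˣ) : R) with hvd
  have hv : M.L * v = 1 := by
    rw [hL]
    exact u.mul_inv
  ext N
  have hIS : ∀ (g : Fin r → MvPolynomial (Fin 2) ℂ) (a b c d : ℕ), PowerSeries.coeff N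
      (IS M v g a b c d) = sv M v g a b c d (fun _ => True) (N + 1) N := fun _ _ _ _ _ =>
    PowerSeries.coeff_mk _ _
  rw [map_add, map_add, map_sum, hIS, hIS, PowerSeries.coeff_C_mul,
    coeff_mf u (by omega : 1 ≤ a0 + a1 + m) (n0 + n1) N, sv_decomp M hv g a0 n0 a1 n1 S (N + 1) N]
  have t1 : ∑ x ∈ Finset.Icc 1 N ×ˢ S, sv M v g a0 n0 a1 n1 (Dc x.2 x.1) (N + 1) N =
      ∑ c ∈ S, PowerSeries.coeff N (IS M v (gc c) (a0 + a1 + m) (n0 + n1) (if c = 0 then a1 else 0)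
        (if c = 0 then n1 else 1)) := by
    rw [Finset.sum_product_right]
    refine Finset.sum_congr rfl fun c _ => ?_
    rw [hIS, sv_pos M hv (gc c) (by omega : 1 ≤ a0 + a1 + m)]
    refine Finset.sum_congr rfl fun k hk => ?_
    exact hChart M v hv g (gc c) m c hm (hgc c) a0 n0 a1 n1 k (N + 1) N hn0 hn1 ha0 ha1
      (Finset.mem_Icc.1 hk).1 le_rfl
  have t2 : ∑ k ∈ Finset.Icc 1 N, sv M v g a0 n0 a1 n1 (Er S k) (N + 1) N =
      ((u : R) - (S.card : R)) * ∑ k ∈ Finset.Icc 1 N,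
      if (a0 + a1 + m) * k = N then ((u : R) - 1) * v ^ ((n0 + n1) * k) else 0 := by
    rw [Finset.mul_sum]
    refine Finset.sum_congr rfl fun k hk => ?_
    rw [hRest M v hv g gc m hm hgc S h0S hS a0 n0 a1 n1 k (N + 1) N hn0 hn1 ha0 ha1
      (Finset.mem_Icc.1 hk).1 le_rfl, hL]
    split_ifs
    · ring
    · ring
  have t3 : ∑ k ∈ Finset.Icc 1 N, sv M v g a0 n0 a1 n1 (Ik k) (N + 1) N =
      sv M v gI a0 n0 (a0 + a1 + m) (n0 + n1) (fun _ => True) (N + 1) N := by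
    have hc : a0 + a1 + m = a1 + a0 + m := by omega
    have hn : n0 + n1 = n1 + n0 := by omega
    rw [hc, hn]
    have s2 := hSwap M v hv gI a0 n0 (a1 + a0 + m) (n1 + n0) (fun _ => True) 0 (Cyl.const True 0)
      (N + 1) N
    rw [← s2, sv_pos M hv (sw gI) (by omega : 1 ≤ a1 + a0 + m)]
    refine Finset.sum_congr rfl fun k hk => ?_
    rw [← hSwap M v hv g a0 n0 a1 n1 (Ik k) k (cyl_Ik k) (N + 1) N]
    have s3 := hChart M v hv (sw g) (sw gI) m 0 hm (chart_sw g gI m hgI) a1 n1 a0 n0 k (N + 1) N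
      hn1 hn0 ha1 ha0 (Finset.mem_Icc.1 hk).1 le_rfl
    rw [if_pos rfl, if_pos rfl] at s3
    rw [← s3]
    refine sv_congr M (sw g) a1 n1 a0 n0 (fun γ _ _ => ?_) (N + 1) N
    have e0 : (fun i => γ (Equiv.swap (0 : Fin 2) 1 i)) 0 = γ 1 := by
      change γ (Equiv.swap (0 : Fin 2) 1 0) = γ 1
      rw [Equiv.swap_apply_left]
    have e1 : (fun i => γ (Equiv.swap (0 : Fin 2) 1 i)) 1 = γ 0 := by
      change γ (Equiv.swap (0 : Fin 2) 1 1) = γ 0
      rw [Equiv.swap_apply_right]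
    unfold Ik Dc
    rw [e0, e1, map_zero, zero_mul]
    constructor
    · rintro ⟨h1, h2, h3⟩
      exact ⟨h2, h3, fun j hj => h1 j (by omega), h1 k (by omega)⟩
    · rintro ⟨h1, h2, h3, h4⟩
      refine ⟨fun j hj => ?_, h1, h2⟩
      rcases Nat.lt_succ_iff_lt_or_eq.1 hj with h | h
      · exact h3 j h
      · rw [h]
        exact h4
  have t4 : sv M v g a0 n0 a1 n1 (fun γ => Vn (N + 1) (γ 0) ∧ Vn (N + 1) (γ 1)) (N + 1) N = 0 :=
    hTail M v hv g (gc 0) m hm (hgc 0) a0 n0 a1 n1 (N + 1) (N + 1) N le_rfl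
  rw [t1, t2, t3, t4]
  ring

end Pool.Agent.Q18.QM
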